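import Pool.Agent.U231.FR.VaDefs

/-!
# The cohomology with coefficients `ℤ(d)` of products with a fixed proper regular scheme: definitions
-/

set_option autoImplicit false

open CategoryTheory AlgebraicGeometry

namespace Pool.Agent.U998.SV

open Pool.Agent.H914 Pool.Agent.H914.VarClass Pool.Agent.H914.VarClass.Obj Pool.Agent.W492.BB
  Pool.Agent.W484.CK

variable {κ : Type} [Field κ] {𝒱 : VarClass κ} {A : TheoryData.{0, 0, 0} 𝒱 ℚ}

/-- The group `T^n(X)` (the elements of degree `n`). -/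
abbrev Gr (T : MotivicData A) (X : 𝒱.Obj) (n : ℤ) : Type := T.gr X n

/-- The sequence `X → Y → Z` is exact. -/
def IsExactAt {X Y Z : Type} [AddCommGroup X] [AddCommGroup Y] [AddCommGroup Z] (f : X →+ Y)
    (g : Y →+ Z) : Prop := Function.Exact f g

/-- There is a long exact sequence `... → H m → R m → B m → H (m + 1) → ...`. -/
def IsLongExact (H R B : ℤ → Type) [∀ m, AddCommGroup (H m)] [∀ m, AddCommGroup (R m)]
    [∀ m, AddCommGroup (B m)] : Prop :=
  ∃ (a : ∀ m : ℤ, H m →+ R m) (b : ∀ m : ℤ, R m →+ B m) (c : ∀ m : ℤ, B m →+ H (m + 1)),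
    ∀ m, IsExactAt (a m) (b m) ∧ IsExactAt (b m) (c m) ∧ IsExactAt (c m) (a (m + 1))

/-- Let `U` be proper, regular and connected of dimension `u`. For the varieties `X` in `𝒱` and
`d = dim X + u` let `T j` be the groups `CH^n(X × U, j) ⊗ ℚ`, `H X m = H^m((X × U)_et, ℤ(d))` and
`B X m = H^m((X × U)_et, ℚ/ℤ(d))`. These are the known properties which are used. -/
structure IsTopWeight (T : ℤ → MotivicData A) (u : ℕ) (H B : 𝒱.Obj → ℤ → Type)
    [∀ X m, AddCommGroup (H X m)] [∀ X m, AddCommGroup (B X m)] : Prop where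
  /-- the sequence of the coefficients `ℤ(d) → ℚ(d) → ℚ/ℤ(d)`; the group with coefficients `ℚ(d)` is
  `CH^d(X × U, 2 d - m) ⊗ ℚ` -/
  coefficients : ∀ X : 𝒱.Obj, IsLongExact (H X)
    (fun m => Gr (T (2 * (X.dim + u : ℕ) - m)) X (X.dim + u : ℕ)) (B X)
  /-- the groups with coefficients `ℚ/ℤ(d)` are finite in the degrees `m < 2 d` (Deligne, Gabber,
  Milne) -/
  finite : ∀ (X : 𝒱.Obj) (m : ℤ), m < 2 * (X.dim + u : ℕ) → Finite (B X m)
  /-- `H^(2 d)(-, ℤ(d))` is finitely generated (unramified class field theory) -/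
  classField : ∀ X : 𝒱.Obj, AddGroup.FG (H X (2 * (X.dim + u : ℕ)))

end Pool.Agent.U998.SV
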