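import Pool.Agent.U173.SF.Sys
import Pool.Agent.U231.FR.Va

/-!
# Vanishing of motivic cohomology for products of varieties with separated slope fields

The proof follows `U231/FR/Va` (helper231) and `U173/PS/Va` (helper173).
-/

set_option autoImplicit false

open Finset Polynomial CategoryTheory AlgebraicGeometry

namespace Pool.Agent.U998.SV

open Pool.Agent.H914 Pool.Agent.H914.VarClass Pool.Agent.H914.VarClass.Obj Pool.Agent.W492.BB
  Pool.Agent.W484.CK Pool.Agent.U231.FR.Base Pool.Agent.U173.SL Pool.Agent.TH121.KT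
  Pool.Agent.U173.PS Pool.Agent.U173.SF Pool.Agent.U231.FR.Va

theorem va_main {κ : Type} [Field κ] {𝒱 : VarClass κ} {A : TheoryData.{0, 0, 0} 𝒱 ℚ} [IsChow A]
    {K : Type} [Field K] [IsAlgClosed K] [CharZero K] {H : WeilTheoryData.{0, 0, 0} A K} [IsWeil H]
    {I : Type} [LinearOrder I] {p m : ℕ} [Fact p.Prime] {ι : Qb →+* PadicAlgCl p}
    {M : IntermediateField ℚ Qb} {E L : I → IntermediateField ℚ Qb} {F : ∀ X : 𝒱.Obj, X ⟶ X}
    {X : I → 𝒱.Obj} {Z : 𝒱.Obj}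
    (h : IsSeparatedFamily p m ι E M L H F X Z) {χ : ℚ[X]} (hχ0 : χ.coeff 0 ≠ 0)
    (hχ : ∀ ρ : K, aeval ρ χ = 0 → HasSlopesIn p ι M ρ)
    (hnil : ∀ l : List I, Nilpotence H (productOf X Z l))
    (T : MotivicData A) (φ : ∀ X, T.M X →ₗ[ℚ] T.M X)
    (hT : IsCycleTheory T φ F (p ^ m)) (hT0 : IsRoot T φ χ)
    (l : List I) (hl : l.Nodup) : Conclusions X Z T l := by
  have hpol := h.polarized
  obtain ⟨S, hsys⟩ := cr_of h (B := {ρ | aeval ρ χ = 0}) hχ
  have hrel : Pool.Agent.N876.CG.RelTheory (toCorr T) φ F (p ^ m) χ :=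
    { corr := toCorr_isCorrTheory hT.motivic
      comm := hT.comm
      power := fun X n t ht => ⟨1, by
        rw [pow_one]
        exact hT.power ht⟩
      poly := fun X n t ht => hT0 ht }
  have hnil' : ∀ l, Pool.Agent.N876.CG.NilT H (toCorr T) (Pool.Agent.N876.CG.tw X Z l) :=
    fun l => Pool.Agent.N876.CG.nilT_of (toCorr_isCorrTheory hT.motivic) (by
      rw [← Pool.Agent.U231.FR.Pa.tw_eq]
      exact nilpotence_bridge (hnil l))
  refine ⟨fun n => ?_, fun i hi => ?_⟩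
  · simp only [Pool.Agent.U231.FR.Va.vanishes_iff]
    rw [Pool.Agent.U231.FR.Pa.tw_eq, Pool.Agent.U231.FR.Pa.dims_eq]
    exact hsys.induct hpol (fun V n => (toCorr T).gr V n = ⊥) (toCorr T) φ χ hχ0
      (fun ρ hρ => hρ) hrel hnil' (fun i V J _ deg D E h1 h2 n =>
        Pool.Agent.N876.CG.vanish_deg h1 (toCorr_isCorrTheory hT.motivic) h2 n) hl n
  · rw [Pool.Agent.U231.FR.Pa.tw_eq]
    obtain ⟨J, hJ, deg, D, E, h1, h2, h3⟩ := hsys.step hi hl
    exact ⟨J, hJ, deg, D, h1.left, h3 _ φ χ hχ0 (fun ρ hρ => hρ) hrel (hnil' (i :: l))⟩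

end Pool.Agent.U998.SV
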