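import Mathlib
import Pool.Agent.U998.SV.Defs
import Pool.Agent.U998.SV.Va

/-!
# The cohomology with coefficients `ℤ(d)` of products with a fixed proper regular scheme
-/

set_option autoImplicit false

open CategoryTheory AlgebraicGeometry Polynomial

namespace Pool.Agent.U998.SV

open Pool.Agent.H914 Pool.Agent.H914.VarClass Pool.Agent.H914.VarClass.Obj Pool.Agent.W492.BB
  Pool.Agent.W484.CK Pool.Agent.U231.FR.Base Pool.Agent.U231.FR.Va

/-! ### Algebra -/

/-- a rational vector space which is a finitely generated abelian group is zero -/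
lemma subsingleton_of_fg {V : Type} [AddCommGroup V] [Module ℚ V] (h : Module.Finite ℤ V) : Subsingleton V := by
  have hfg : (⊤ : Submodule ℤ V).FG := Module.finite_def.1 h
  have h2 : (⊤ : Submodule ℤ V) ≤ Ideal.span {(2 : ℤ)} • (⊤ : Submodule ℤ V) := by
    intro x _
    have hx : x = (2 : ℤ) • ((2 : ℚ)⁻¹ • x) := by
      rw [← Int.cast_smul_eq_zsmul ℚ, smul_smul]
      norm_num
    rw [hx]
    exact Submodule.smul_mem_smul (Ideal.mem_span_singleton_self 2) trivial
  obtain ⟨r, hr, hr0⟩ := Submodule.exists_sub_one_mem_and_smul_eq_zero_of_fg_of_le_smul _ _ hfg h2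
  have hrne : (r : ℚ) ≠ 0 := by
    intro h0
    have h1 : r = 0 := by exact_mod_cast h0
    rw [h1, Ideal.mem_span_singleton] at hr
    norm_num at hr
  have hz : ∀ x : V, x = 0 := by
    intro x
    have h3 := hr0 x trivial
    rw [← Int.cast_smul_eq_zsmul ℚ] at h3
    exact (smul_eq_zero.1 h3).resolve_left hrne
  exact ⟨fun x y => by rw [hz x, hz y]⟩

/-- a homomorphism from a rational vector space to a finite group is zero -/
lemma zero_of_finite {V T : Type} [AddCommGroup V] [Module ℚ V] [AddCommGroup T] (hT : Finite T)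
    (f : V →+ T) (x : V) : f x = 0 := by
  have hN : (Nat.card T : ℚ) ≠ 0 := by
    have := Nat.card_pos (α := T)
    exact_mod_cast this.ne'
  have hx : x = Nat.card T • ((Nat.card T : ℚ)⁻¹ • x) := by
    rw [← Nat.cast_smul_eq_nsmul ℚ, smul_smul, mul_inv_cancel₀ hN, one_smul]
  rw [hx, map_nsmul]
  exact card_nsmul_eq_zero'

variable {κ : Type} [Field κ] {𝒱 : VarClass κ} {A : TheoryData.{0, 0, 0} 𝒱 ℚ}

lemma vanishes_iff_subsingleton {T : MotivicData A} {X : 𝒱.Obj} {n : ℤ} :
    Vanishes T X n ↔ Subsingleton (Gr T X n) := by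
  constructor
  · intro h
    exact ⟨fun x y => Subtype.ext ((h x x.2).trans (h y y.2).symm)⟩
  · intro h t ht
    have h1 : (⟨t, ht⟩ : Gr T X n) = 0 := Subsingleton.elim _ _
    exact congrArg Subtype.val h1

section

variable {T : ℤ → MotivicData A} {u : ℕ} {H B : 𝒱.Obj → ℤ → Type} [∀ X m, AddCommGroup (H X m)]
  [∀ X m, AddCommGroup (B X m)]

/-- Vanishing of the rational group implies finiteness. -/
theorem finite_of_vanishes (W : IsTopWeight T u H B) (V : 𝒱.Obj) {m : ℤ}
    (hm : m < 2 * (V.dim + u : ℕ))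
    (hv : Vanishes (T (2 * (V.dim + u : ℕ) - m)) V (V.dim + u : ℕ)) : Finite (H V m) := by
  obtain ⟨a, b, c, h0⟩ := W.coefficients V
  have h3 : ∀ m, Function.Exact (c m) (a (m + 1)) := fun m => (h0 m).2.2
  obtain ⟨n, rfl⟩ : ∃ n, m = n + 1 := ⟨m - 1, by ring⟩
  have hT : Finite (B V n) := W.finite V n (by omega)
  have hs := vanishes_iff_subsingleton.1 hv
  have hsurj : Function.Surjective (c n) := fun x => (h3 n x).1 (Subsingleton.elim _ _)
  exact Finite.of_surjective _ hsurj

/-- Finite generation and vanishing of the rational group, in one degree. -/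
theorem fg_iff (W : IsTopWeight T u H B) (V : 𝒱.Obj) {m : ℤ} (hm : m < 2 * (V.dim + u : ℕ)) :
    AddGroup.FG (H V m) ↔ Vanishes (T (2 * (V.dim + u : ℕ) - m)) V (V.dim + u : ℕ) := by
  constructor
  · obtain ⟨a, b, c, h0⟩ := W.coefficients V
    have h1 : ∀ m, Function.Exact (a m) (b m) := fun m => (h0 m).1
    intro hfg
    have hT := W.finite V m hm
    have hsurj : Function.Surjective (a m) := fun x => (h1 m x).1 (zero_of_finite hT (b m) x)
    have hlin : Function.Surjective (a m).toIntLinearMap := hsurj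
    have hfg' : Module.Finite ℤ (H V m) := Module.Finite.iff_addGroup_fg.2 hfg
    exact vanishes_iff_subsingleton.2
      (subsingleton_of_fg (Module.Finite.of_surjective (a m).toIntLinearMap hlin))
  · intro hv
    have := finite_of_vanishes W V hm hv
    exact Module.Finite.iff_addGroup_fg.1 Module.Finite.of_finite

/-- finitely generated or finite -/
theorem fg_iff_finite (W : IsTopWeight T u H B) (V : 𝒱.Obj) {m : ℤ}
    (hm : m < 2 * (V.dim + u : ℕ)) : AddGroup.FG (H V m) ↔ Finite (H V m) :=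
  ⟨fun h => finite_of_vanishes W V hm ((fg_iff W V hm).1 h),
    fun _ => Module.Finite.iff_addGroup_fg.1 Module.Finite.of_finite⟩

end

lemma dim_productOf {I : Type} (X : I → 𝒱.Obj) (Z : 𝒱.Obj) (l : List I) :
    (productOf X Z l).dim = dimension X l + Z.dim := by
  induction l with
  | nil => simp [productOf, dimension]
  | cons i l ih =>
    rw [productOf, Obj.dim_prod, ih, dimension]
    ring

/-- The dimension of `V × U` for the product `V` of `Z` and the `X i` with `i` in `l`. -/
noncomputable def dimOf {I : Type} (X : I → 𝒱.Obj) (Z : 𝒱.Obj) (u : ℕ) (l : List I) : ℤ :=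
  ((productOf X Z l).dim + u : ℕ)

/-- The conclusions for the product `V` of the `X i` with `i` in `l` and of `Z`; let
`d = dim (V × U)` and `z = dim (Z × U)`. -/
structure TopConclusions {I : Type} (X : I → 𝒱.Obj) (Z : 𝒱.Obj) (T : ℤ → MotivicData A) (u : ℕ)
    (H : 𝒱.Obj → ℤ → Type) [∀ X m, AddCommGroup (H X m)] (l : List I) : Prop where
  /-- the group `H^m((V × U)_et, ℤ(d))` for one `m < 2 d` -/
  degree : ∀ m : ℤ, m < 2 * dimOf X Z u l →
    ((AddGroup.FG (H (productOf X Z l) m) ↔ ∀ c : ℤ, dimOf X Z u [] ≤ c → c ≤ dimOf X Z u l →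
      Vanishes (T (2 * dimOf X Z u l - m)) Z c) ∧
    (AddGroup.FG (H (productOf X Z l) m) ↔ Finite (H (productOf X Z l) m)))
  /-- the degrees `0 ≤ m ≤ 2 d` -/
  range : (∀ m : ℤ, 0 ≤ m → m ≤ 2 * dimOf X Z u l → AddGroup.FG (H (productOf X Z l) m)) ↔
    ∀ j : ℤ, 1 ≤ j → j ≤ 2 * dimOf X Z u l →
      ∀ c : ℤ, dimOf X Z u [] ≤ c → c ≤ dimOf X Z u l → Vanishes (T j) Z c
  /-- the degrees `m ≤ 2 d` -/
  all : (∀ m : ℤ, m ≤ 2 * dimOf X Z u l → AddGroup.FG (H (productOf X Z l) m)) ↔
    ∀ j : ℤ, 1 ≤ j → ∀ c : ℤ, dimOf X Z u [] ≤ c → c ≤ dimOf X Z u l → Vanishes (T j) Z c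
  /-- comparison with the product `V'` of the `X i` with `i` in `l'` and of `Z`, if
  `dim V' ≤ dim V` -/
  compare : ∀ l' : List I, l'.Nodup → dimOf X Z u l' ≤ dimOf X Z u l →
    ∀ m m' : ℤ, 2 * dimOf X Z u l - m = 2 * dimOf X Z u l' - m' → m < 2 * dimOf X Z u l →
      AddGroup.FG (H (productOf X Z l) m) → AddGroup.FG (H (productOf X Z l') m')

theorem conclusions_of {I : Type} {X : I → 𝒱.Obj} {Z : 𝒱.Obj} {T : ℤ → MotivicData A} {u : ℕ}
    {H B : 𝒱.Obj → ℤ → Type} [∀ X m, AddCommGroup (H X m)] [∀ X m, AddCommGroup (B X m)]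
    (W : IsTopWeight T u H B)
    (h : ∀ (j : ℤ) (l : List I), l.Nodup → Conclusions X Z (T j) l) (l : List I) (hl : l.Nodup) :
    TopConclusions X Z T u H l := by
  have key : ∀ l : List I, l.Nodup → ∀ m : ℤ, m < 2 * dimOf X Z u l →
      (AddGroup.FG (H (productOf X Z l) m) ↔ ∀ c : ℤ, dimOf X Z u [] ≤ c → c ≤ dimOf X Z u l →
        Vanishes (T (2 * dimOf X Z u l - m)) Z c) := by
    intro l hl m hm
    rw [fg_iff W (productOf X Z l) hm]
    rw [(h _ l hl).vanishes]
    have h1 : (((productOf X Z l).dim + u : ℕ) : ℤ) - dimension X l = dimOf X Z u [] := by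
      rw [dim_productOf]
      unfold dimOf
      rw [dim_productOf]
      unfold dimension
      push_cast
      ring
    rw [h1]
    exact Iff.rfl
  refine ⟨fun m hm => ⟨key l hl m hm, fg_iff_finite W _ hm⟩, ?_, ?_, ?_⟩
  · constructor
    · intro h0 j h1 h2 c h3 h4
      have h5 := (key l hl (2 * dimOf X Z u l - j) (by omega)).1
        (h0 _ (by omega) (by omega)) c h3 h4
      rwa [sub_sub_cancel] at h5
    · intro h0 m h1 h2
      rcases h2.lt_or_eq with h3 | rfl
      · exact (key l hl m h3).2 fun c => h0 _ (by omega) (by omega) c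
      · exact W.classField _
  · constructor
    · intro h0 j h1 c h3 h4
      have h5 := (key l hl (2 * dimOf X Z u l - j) (by omega)).1 (h0 _ (by omega)) c h3 h4
      rwa [sub_sub_cancel] at h5
    · intro h0 m h2
      rcases h2.lt_or_eq with h3 | rfl
      · exact (key l hl m h3).2 fun c => h0 _ (by omega) c
      · exact W.classField _
  · intro l' hl' hle m m' hmm hm hfg
    refine (key l' hl' m' (by omega)).2 fun c h1 h2 => ?_
    have h3 := (key l hl m hm).1 hfg c h1 (by omega)
    rwa [hmm] at h3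

end Pool.Agent.U998.SV
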